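import Pool.Agent.Helper53.SL.St2
import Pool.Agent.Helper81.SL.M_HAN

/-!
# MP_9062f4_nt, project SL, part 2, module DET

The Hankel determinants of an integer sequence `f` with `h * f = g`, `h 0 ≠ 0`, convolution by `g` and
`h` bounded on `l²`, vanish from some size on.
-/

set_option autoImplicit false

open Polynomial Filter Topology

noncomputable section

namespace Pool.Agent.Helper66.SLM

open Pool.Agent.Helper53.SL

/-- convolution of sequences -/
private def cv (a b : ℕ → ℝ) (n : ℕ) : ℝ := ∑ i ∈ Finset.range (n + 1), a i * b (n - i)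

private lemma mk_cv (a b : ℕ → ℝ) : PowerSeries.mk (cv a b) = PowerSeries.mk a * PowerSeries.mk b := by
  ext n
  rw [PowerSeries.coeff_mul, PowerSeries.coeff_mk, Finset.Nat.sum_antidiagonal_eq_sum_range_succ_mk]
  simp [cv]

private lemma mk_inj {a b : ℕ → ℝ} (h : PowerSeries.mk a = PowerSeries.mk b) : a = b := by
  funext n
  have := congrArg (PowerSeries.coeff n) h
  simpa using this

private lemma cv_comm (a b : ℕ → ℝ) : cv a b = cv b a := by
  apply mk_inj
  rw [mk_cv, mk_cv, mul_comm]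

private lemma cv_assoc (a b c : ℕ → ℝ) : cv (cv a b) c = cv a (cv b c) := by
  apply mk_inj
  rw [mk_cv, mk_cv, mk_cv, mk_cv, mul_assoc]

private lemma cv_sub (a b c : ℕ → ℝ) : cv a (fun n => b n - c n) = fun n => cv a b n - cv a c n := by
  funext n
  simp only [cv, mul_sub, Finset.sum_sub_distrib]

/-- the shifted sequence -/
private def sf (i : ℕ) (g : ℕ → ℝ) (n : ℕ) : ℝ := g (i + n)

private def uu (i : ℕ) (h : ℕ → ℝ) (n : ℕ) : ℝ := if n = 0 then 0 else h (i + n)

private lemma row_eq (f g h : ℕ → ℝ) (hg : ∀ n, cv h f n = g n) (i : ℕ) :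
    (fun l => ∑ k ∈ Finset.range (i + 1), h (i - k) * f (k + l)) =
      fun l => sf i g l - cv (uu i h) f l := by
  funext l
  have h1 : g (i + l) = ∑ m ∈ Finset.range (i + l + 1), f m * h (i + l - m) := by
    rw [← hg, cv_comm]
    rfl
  have h2 : ∑ m ∈ Finset.range (i + l + 1), f m * h (i + l - m) =
      ∑ m ∈ Finset.range l, f m * h (i + l - m) +
        ∑ k ∈ Finset.range (i + 1), f (l + k) * h (i + l - (l + k)) := by
    rw [show i + l + 1 = l + (i + 1) by ring, Finset.sum_range_add]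
  have h3 : cv (uu i h) f l = ∑ m ∈ Finset.range l, f m * h (i + l - m) := by
    rw [cv_comm]
    unfold cv
    rw [Finset.sum_range_succ]
    simp only [Nat.sub_self, uu, if_true, mul_zero, add_zero]
    refine Finset.sum_congr rfl fun m hm => ?_
    have hm' := Finset.mem_range.1 hm
    rw [if_neg (by omega), show i + (l - m) = i + l - m by omega]
  rw [h3, sf, h1, h2, add_sub_cancel_left]
  refine Finset.sum_congr rfl fun k hk => ?_
  have hk' := Finset.mem_range.1 hk
  rw [show i + l - (l + k) = i - k by omega, add_comm k l, mul_comm]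

private lemma full_row (f g h : ℕ → ℝ) (hg : ∀ n, cv h f n = g n) (i : ℕ) :
    cv h (fun l => ∑ k ∈ Finset.range (i + 1), h (i - k) * f (k + l)) =
      fun n => cv h (sf i g) n - cv g (uu i h) n := by
  have hg' : cv h f = g := funext hg
  rw [row_eq f g h hg i, cv_sub]
  funext n
  have h1 : cv h (cv (uu i h) f) = cv g (uu i h) := by
    rw [cv_comm (uu i h) f, ← cv_assoc, hg']
  rw [h1]

private lemma toe_sum {b : ℕ → ℝ} {M : ℝ} (hb : Toe b M) (N : ℕ) :
    ∑ n ∈ Finset.range N, b n ^ 2 ≤ max M 0 := by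
  have h := hb (fun n => if n = 0 then 1 else 0) N
  have h1 : ∀ n : ℕ, ∑ i ∈ Finset.range (n + 1), b i * (if n - i = 0 then (1 : ℝ) else 0) = b n := by
    intro n
    rw [Finset.sum_range_succ]
    rw [Finset.sum_eq_zero]
    · simp
    · intro i hi
      have := Finset.mem_range.1 hi
      rw [if_neg (by omega), mul_zero]
  simp only [h1] at h
  refine h.trans ?_
  rcases Nat.eq_zero_or_pos N with h0 | h0
  · subst h0
    simp
  · have h2 : ∑ n ∈ Finset.range N, (if n = 0 then (1 : ℝ) else 0) ^ 2 = 1 := by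
      rw [Finset.sum_eq_single 0]
      · simp
      · intro b _ hb
        simp [hb]
      · intro h
        exact absurd (Finset.mem_range.2 h0) h
    rw [h2, mul_one]
    exact le_max_left _ _

private lemma toe_cv {b : ℕ → ℝ} {M : ℝ} (hb : Toe b M) (x : ℕ → ℝ) (N : ℕ) :
    ∑ n ∈ Finset.range N, cv b x n ^ 2 ≤ M * ∑ n ∈ Finset.range N, x n ^ 2 := hb x N

/-- MODULE DET. -/
theorem hDet : StDet := by
  intro f g h M h0 hfg hTh hTg
  obtain ⟨F, hF⟩ : ∃ F : ℕ → ℝ, F = fun n => (f n : ℝ) := ⟨_, rfl⟩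
  have hg : ∀ n, cv h F n = g n := by
    intro n
    rw [← hfg n, hF]
    rfl
  have hM : 0 ≤ M := by
    have h1 := hTh (fun n => if n = 0 then 1 else 0) 1
    simp at h1
    exact (sq_nonneg _).trans h1
  have hSh : Summable fun n => h n ^ 2 :=
    summable_of_sum_range_le (c := max M 0) (fun n => sq_nonneg _) (toe_sum hTh)
  have hSg : Summable fun n => g n ^ 2 :=
    summable_of_sum_range_le (c := max M 0) (fun n => sq_nonneg _) (toe_sum hTg)
  -- tails
  obtain ⟨T, hT⟩ : ∃ T : ℕ → ℝ, T = fun i => 2 * M * (∑' k, g (k + i) ^ 2 + ∑' k, h (k + i) ^ 2) :=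
    ⟨_, rfl⟩
  have hTt : Tendsto T atTop (𝓝 0) := by
    have h1 := (tendsto_sum_nat_add fun k => g k ^ 2).add (tendsto_sum_nat_add fun k => h k ^ 2)
    have h2 := h1.const_mul (2 * M)
    simpa [hT] using h2
  have hgs : ∀ i, Summable fun k => g (k + i) ^ 2 := fun i => (summable_nat_add_iff i).2 hSg
  have hhs : ∀ i, Summable fun k => h (k + i) ^ 2 := fun i => (summable_nat_add_iff i).2 hSh
  -- the rows
  have hrow : ∀ i N : ℕ, ∑ j ∈ Finset.range N,
      cv h (fun l => ∑ k ∈ Finset.range (i + 1), h (i - k) * F (k + l)) j ^ 2 ≤ T i := by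
    intro i N
    rw [full_row F g h hg i]
    have h1 : ∑ j ∈ Finset.range N, cv h (sf i g) j ^ 2 ≤ M * ∑' k, g (k + i) ^ 2 := by
      refine (toe_cv hTh (sf i g) N).trans (mul_le_mul_of_nonneg_left ?_ hM)
      have := (hgs i).sum_le_tsum (Finset.range N) fun k _ => sq_nonneg _
      simpa only [sf, add_comm i] using this
    have h2 : ∑ j ∈ Finset.range N, cv g (uu i h) j ^ 2 ≤ M * ∑' k, h (k + i) ^ 2 := by
      refine (toe_cv hTg (uu i h) N).trans (mul_le_mul_of_nonneg_left ?_ hM)
      have h3 := (hhs i).sum_le_tsum (Finset.range N) fun k _ => sq_nonneg _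
      refine le_trans (Finset.sum_le_sum fun j _ => ?_) h3
      unfold uu
      split_ifs
      · simpa using sq_nonneg (h (j + i))
      · rw [add_comm i]
    calc ∑ j ∈ Finset.range N, (cv h (sf i g) j - cv g (uu i h) j) ^ 2
        ≤ ∑ j ∈ Finset.range N, (2 * cv h (sf i g) j ^ 2 + 2 * cv g (uu i h) j ^ 2) := by
          refine Finset.sum_le_sum fun j _ => ?_
          nlinarith [sq_nonneg (cv h (sf i g) j + cv g (uu i h) j)]
      _ = 2 * ∑ j ∈ Finset.range N, cv h (sf i g) j ^ 2 + 2 * ∑ j ∈ Finset.range N, cv g (uu i h) j ^ 2 := by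
          rw [Finset.sum_add_distrib, Finset.mul_sum, Finset.mul_sum]
      _ ≤ T i := by
          rw [hT]
          dsimp only
          linarith
  -- the determinant
  have hdet : ∀ n : ℕ, |(Matrix.of fun i j : Fin n => (f (i + j) : ℝ)).det| ≤
      ∏ i ∈ Finset.range n, (√(T i) / h 0 ^ 2) := by
    intro n
    obtain ⟨H, hH⟩ : ∃ H : Matrix (Fin n) (Fin n) ℝ, H = Matrix.of fun i j : Fin n => (f (i + j) : ℝ) :=
      ⟨_, rfl⟩
    obtain ⟨L, hL⟩ : ∃ L : Matrix (Fin n) (Fin n) ℝ,
        L = Matrix.of fun i k : Fin n => if (k : ℕ) ≤ i then h ((i : ℕ) - k) else 0 := ⟨_, rfl⟩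
    have hLd : L.det = h 0 ^ n := by
      rw [Matrix.det_of_isLowerTriangular]
      · simp [hL]
      · intro i j hij
        have hij' : i < j := hij
        have h5 : ¬ ((j : ℕ) ≤ i) := by
          rw [not_le]
          exact hij'
        rw [hL, Matrix.of_apply, if_neg h5]
    have hC : ∀ i j : Fin n, (L * H * L.transpose) i j =
        cv h (fun l => ∑ k ∈ Finset.range ((i : ℕ) + 1), h (i - k) * F (k + l)) j := by
      intro i j
      have hLH : ∀ l : Fin n, (L * H) i l = ∑ k ∈ Finset.range ((i : ℕ) + 1), h (i - k) * F (k + l) := by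
        intro l
        rw [Matrix.mul_apply]
        have e1 : ∀ k : Fin n, L i k * H k l =
            (fun k : ℕ => (if k ≤ i then h ((i : ℕ) - k) else 0) * F (k + l)) k := by
          intro k
          simp [hL, hH, hF]
        rw [Finset.sum_congr rfl fun k _ => e1 k, Fin.sum_univ_eq_sum_range
          (fun k : ℕ => (if k ≤ i then h ((i : ℕ) - k) else 0) * F (k + l)) n]
        rw [← Finset.sum_subset (Finset.range_mono (Nat.succ_le_of_lt i.2))]
        · refine Finset.sum_congr rfl fun k hk => ?_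
          rw [if_pos (Nat.lt_succ_iff.1 (Finset.mem_range.1 hk))]
        · intro k _ hk
          rw [if_neg, zero_mul]
          intro hk'
          exact hk (Finset.mem_range.2 (Nat.lt_succ_iff.2 hk'))
      rw [Matrix.mul_apply]
      obtain ⟨r, hr⟩ : ∃ r : ℕ → ℝ, r = fun l => ∑ k ∈ Finset.range ((i : ℕ) + 1), h (i - k) * F (k + l) :=
        ⟨_, rfl⟩
      have e2 : ∀ l : Fin n, (L * H) i l * L.transpose l j =
          (fun l : ℕ => r l * (if l ≤ j then h ((j : ℕ) - l) else 0)) l := by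
        intro l
        rw [hLH, hr]
        simp [hL]
      rw [Finset.sum_congr rfl fun l _ => e2 l, Fin.sum_univ_eq_sum_range
        (fun l : ℕ => r l * (if l ≤ j then h ((j : ℕ) - l) else 0)) n]
      rw [← Finset.sum_subset (Finset.range_mono (Nat.succ_le_of_lt j.2)), ← hr, cv_comm]
      · refine Finset.sum_congr rfl fun k hk => ?_
        rw [if_pos (Nat.lt_succ_iff.1 (Finset.mem_range.1 hk))]
      · intro k _ hk
        rw [if_neg, mul_zero]
        intro hk'
        exact hk (Finset.mem_range.2 (Nat.lt_succ_iff.2 hk'))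
    have hCd : (L * H * L.transpose).det = (h 0 ^ 2) ^ n * H.det := by
      rw [Matrix.det_mul, Matrix.det_mul, Matrix.det_transpose, hLd]
      ring
    have hb := Pool.Agent.Helper81.SL.abs_det_le_rows n (L * H * L.transpose)
    have hb2 : ∏ i : Fin n, √(∑ j : Fin n, (L * H * L.transpose) i j ^ 2) ≤
        ∏ i ∈ Finset.range n, √(T i) := by
      rw [Finset.prod_range]
      refine Finset.prod_le_prod (fun i _ => Real.sqrt_nonneg _) fun i _ => Real.sqrt_le_sqrt ?_
      refine le_trans (le_of_eq ?_) (hrow i n)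
      rw [Finset.sum_range]
      refine Finset.sum_congr rfl fun j _ => ?_
      rw [hC]
    rw [hCd, abs_mul, abs_of_nonneg (by positivity)] at hb
    rw [← hH, Finset.prod_div_distrib, Finset.prod_const, Finset.card_range, le_div_iff₀ (by positivity)]
    calc |H.det| * (h 0 ^ 2) ^ n = (h 0 ^ 2) ^ n * |H.det| := mul_comm _ _
      _ ≤ _ := hb.trans hb2
  -- the factors tend to zero
  obtain ⟨r, hr⟩ : ∃ r : ℕ → ℝ, r = fun i => √(T i) / h 0 ^ 2 := ⟨_, rfl⟩
  have hr0 : ∀ i, 0 ≤ r i := by
    intro i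
    rw [hr]
    positivity
  have hrt : Tendsto r atTop (𝓝 0) := by
    have h1 : Tendsto (fun i => √(T i)) atTop (𝓝 0) := by
      have h5 := (Real.continuous_sqrt.tendsto 0).comp hTt
      rw [Real.sqrt_zero] at h5
      exact h5
    have h2 := h1.div_const (h 0 ^ 2)
    simpa [hr] using h2
  obtain ⟨B1, hB1⟩ := hrt.bddAbove_range
  obtain ⟨i0, hi0⟩ : ∃ i0, ∀ i, i0 ≤ i → r i ≤ 1 / 2 := by
    obtain ⟨i0, h⟩ := eventually_atTop.1 (hrt.eventually (gt_mem_nhds (show (0 : ℝ) < 1 / 2 by norm_num)))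
    exact ⟨i0, fun i hi => (h i hi).le⟩
  have hprod : ∀ m : ℕ, ∏ i ∈ Finset.range m, r i ≤ (max B1 1 / (1 / 2)) ^ i0 * (1 / 2) ^ m :=
    fun m => Pool.Agent.Helper81.SL.prod_bound r (max B1 1) (1 / 2) i0 (by norm_num)
      (le_trans (by norm_num) (le_max_right _ _)) hr0
      (fun i => (hB1 ⟨i, rfl⟩).trans (le_max_left _ _)) hi0 m
  have hlim : Tendsto (fun m : ℕ => (max B1 1 / (1 / 2)) ^ i0 * (1 / 2 : ℝ) ^ m) atTop (𝓝 0) := by
    have h2 := tendsto_pow_atTop_nhds_zero_of_lt_one (r := (1 / 2 : ℝ)) (by norm_num) (by norm_num)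
    simpa using h2.const_mul ((max B1 1 / (1 / 2)) ^ i0)
  obtain ⟨m0, hm0⟩ := eventually_atTop.1 (hlim.eventually (gt_mem_nhds (zero_lt_one)))
  refine ⟨m0, fun n hn => ?_⟩
  have h1 : |(Matrix.of fun i j : Fin n => (f (i + j) : ℝ)).det| < 1 := by
    refine (hdet n).trans_lt (lt_of_le_of_lt ?_ (hm0 n hn))
    have := hprod n
    rw [hr] at this
    exact this
  rw [Pool.Agent.Helper81.SL.det_cast] at h1
  rw [Pool.Agent.Helper81.SL.det_castQ]
  have h2 : |(Matrix.of fun i j : Fin n => f (i + j)).det| < 1 := by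
    have : ((|(Matrix.of fun i j : Fin n => f (i + j)).det| : ℤ) : ℝ) < 1 := by
      rw [Int.cast_abs]
      exact h1
    exact_mod_cast this
  rw [Int.abs_lt_one_iff.1 h2]
  simp

end Pool.Agent.Helper66.SLM

end
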